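import Pool.Agent.W313.BM.Example

set_option autoImplicit false

/-! # Admissible systems which contain all independence spaces

The problem asks whether the system of all B-matroids is the only admissible system which contains
all independence spaces. It is not: on every ground set the direct sums of an independence space
and of the dual of an independence space form an admissible system, which is even closed under
arbitrary direct sums, and on every infinite set some B-matroid does not belong to it. The missing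
B-matroid can be taken to be tame: every circuit meets every cocircuit in at most two elements. -/

namespace Pool.Agent.Results.MP_cb2a9f_co.ProperAdmissibleSystem

open Set Matroid Pool.Agent.W313.BM

/-- `(W, I)` is a pre-independence space: the members of `I` are subsets of `W`, the empty set is
one of them, `I` is closed under subsets, and for finite `I₁, I₂ ∈ I` with `|I₁| < |I₂|` there is
`e ∈ I₂ \ I₁` with `I₁ ∪ {e} ∈ I`. -/
structure IsPreIndependenceSpace {S : Type*} (W : Set S) (I : Set (Set S)) : Prop where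
  ground : ∀ X ∈ I, X ⊆ W
  empty_mem : ∅ ∈ I
  subset_mem : ∀ X ∈ I, ∀ Y, Y ⊆ X → Y ∈ I
  augment : ∀ I₁ ∈ I, ∀ I₂ ∈ I, I₁.Finite → I₂.Finite → I₁.ncard < I₂.ncard →
    ∃ e ∈ I₂ \ I₁, insert e I₁ ∈ I

/-- `(W, I)` is an independence space: moreover `Y ∈ I` whenever all finite subsets of `Y ⊆ W` are
in `I`. -/
structure IsIndependenceSpace {S : Type*} (W : Set S) (I : Set (Set S)) : Prop extends
    IsPreIndependenceSpace W I where
  finitary : ∀ Y, Y ⊆ W → (∀ F, F ⊆ Y → F.Finite → F ∈ I) → Y ∈ I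

/-- `B` is a maximal member of `{Y ∈ I : Y ⊆ X}`. -/
def IsMaxIn {S : Type*} (I : Set (Set S)) (X B : Set S) : Prop :=
  Maximal (fun Y => Y ∈ I ∧ Y ⊆ X) B

/-- `(W, I)` is a B-matroid. -/
structure IsBMatroid {S : Type*} (W : Set S) (I : Set (Set S)) : Prop where
  ground : ∀ X ∈ I, X ⊆ W
  empty_mem : ∅ ∈ I
  subset_mem : ∀ X ∈ I, ∀ Y, Y ⊆ X → Y ∈ I
  ib1 : ∀ X ⊆ W, ∀ T ∈ I, T ⊆ X → ∃ B, IsMaxIn I X B ∧ T ⊆ B
  ib2 : ∀ X ⊆ W, ∀ B₁ B₂, IsMaxIn I X B₁ → IsMaxIn I X B₂ → ∀ x ∈ B₁ \ B₂,
    ∃ y ∈ B₂ \ B₁, IsMaxIn I X (insert y (B₁ \ {x}))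

/-- The restriction `I | Z`. -/
def restriction {S : Type*} (I : Set (Set S)) (Z : Set S) : Set (Set S) := {Y | Y ∈ I ∧ Y ⊆ Z}

/-- `B` is a basis of `I`: a maximal member. -/
def IsBasisOf {S : Type*} (I : Set (Set S)) (B : Set S) : Prop := Maximal (fun Y => Y ∈ I) B

/-- The contraction `I . Z`, computed with the basis `B` of `I | (W \ Z)`. -/
def contraction {S : Type*} (I : Set (Set S)) (Z B : Set S) : Set (Set S) :=
  {Y | Y ⊆ Z ∧ Y ∪ B ∈ I}

/-- The dual of `(W, I)`: all subsets of `W` whose complement in `W` contains a basis of `I`. -/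
def dualSpace {S : Type*} (W : Set S) (I : Set (Set S)) : Set (Set S) :=
  {X | X ⊆ W ∧ ∃ B, IsBasisOf I B ∧ B ⊆ W \ X}

/-- Admissible systems. -/
structure IsAdmissible {S : Type*} (D : Set S → Set (Set (Set S))) : Prop where
  pre : ∀ W, ∀ I ∈ D W, IsPreIndependenceSpace W I
  restriction_mem : ∀ W, ∀ I ∈ D W, ∀ Z ⊆ W, restriction I Z ∈ D Z
  exists_basis : ∀ W, ∀ I ∈ D W, ∀ Z ⊆ W, ∃ B, IsBasisOf (restriction I (W \ Z)) B
  contraction_eq : ∀ W, ∀ I ∈ D W, ∀ Z ⊆ W, ∀ B B', IsBasisOf (restriction I (W \ Z)) B →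
    IsBasisOf (restriction I (W \ Z)) B' → contraction I Z B = contraction I Z B'
  contraction_mem : ∀ W, ∀ I ∈ D W, ∀ Z ⊆ W, ∀ B, IsBasisOf (restriction I (W \ Z)) B →
    contraction I Z B ∈ D Z
  dual_mem : ∀ W, ∀ I ∈ D W, dualSpace W I ∈ D W
  dual_dual : ∀ W, ∀ I ∈ D W, dualSpace W (dualSpace W I) = I

/-- The system `D` is closed under arbitrary direct sums: if the members of `P` are pairwise
disjoint subsets and `J V ∈ D V` for all `V ∈ P`, then the family of all `X ⊆ ⋃ P` with
`X ∩ V ∈ J V` for all `V ∈ P` belongs to `D (⋃ P)`. -/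
def ClosedUnderDirectSums {S : Type*} (D : Set S → Set (Set (Set S))) : Prop :=
  ∀ (P : Set (Set S)) (J : Set S → Set (Set S)), P.PairwiseDisjoint id → (∀ V ∈ P, J V ∈ D V) →
    {X | X ⊆ ⋃₀ P ∧ ∀ V ∈ P, X ∩ V ∈ J V} ∈ D (⋃₀ P)

/-- `C` is a circuit of `(W, I)`: a minimal subset of `W` which is not in `I`. -/
def IsCircuitOf {S : Type*} (W : Set S) (I : Set (Set S)) (C : Set S) : Prop :=
  Minimal (fun Y => Y ⊆ W ∧ Y ∉ I) C

/-! ### Proofs -/

section proofs

variable {S : Type*}

/-- the independent sets of a matroid -/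
def fam (M : Matroid S) : Set (Set S) := {X | M.Indep X}

theorem fam_injE {M N : Matroid S} (hE : M.E = N.E) (h : fam M = fam N) : M = N :=
  ext_indep hE fun I _ => by
    have : I ∈ fam M ↔ I ∈ fam N := by rw [h]
    exact this

theorem pre_fam (M : Matroid S) : IsPreIndependenceSpace M.E (fam M) where
  ground := fun X hX => hX.subset_ground
  empty_mem := M.empty_indep
  subset_mem := fun X hX Y hY => hX.subset hY
  augment := by
    intro I₁ h1 I₂ h2 hf1 hf2 hlt
    have h3 : I₁.encard < I₂.encard := by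
      rw [← hf1.cast_ncard_eq, ← hf2.cast_ncard_eq]
      exact_mod_cast hlt
    obtain ⟨e, he, he'⟩ := Indep.augment h1 h2 h3
    exact ⟨e, he, he'⟩

theorem isMaxIn_iff (M : Matroid S) (X B : Set S) (hX : X ⊆ M.E) :
    IsMaxIn (fam M) X B ↔ M.IsBasis B X := by
  rw [isBasis_iff_maximal]
  rfl

theorem bmatroid_fam (M : Matroid S) : IsBMatroid M.E (fam M) where
  ground := fun X hX => hX.subset_ground
  empty_mem := M.empty_indep
  subset_mem := fun X hX Y hY => hX.subset hY
  ib1 := by
    intro X hX T hT hTX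
    obtain ⟨B, hB, hTB⟩ := Indep.subset_isBasis_of_subset hT hTX hX
    exact ⟨B, (isMaxIn_iff M X B hX).2 hB, hTB⟩
  ib2 := by
    intro X hX B₁ B₂ h1 h2 x hx
    rw [isMaxIn_iff M X _ hX] at h1 h2
    obtain ⟨y, hy, hy'⟩ := (h1.isBase_restrict).exchange h2.isBase_restrict hx
    refine ⟨y, hy, ?_⟩
    rw [isMaxIn_iff M X _ hX]
    exact (isBase_restrict_iff hX).1 hy'

theorem isBasisOf_iff (M : Matroid S) (B : Set S) : IsBasisOf (fam M) B ↔ M.IsBase B := by
  rw [isBase_iff_maximal_indep]
  rfl

theorem restriction_fam (M : Matroid S) (Z : Set S) :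
    restriction (fam M) Z = fam (M ↾ Z) := by
  ext Y
  change M.Indep Y ∧ Y ⊆ Z ↔ (M ↾ Z).Indep Y
  rw [restrict_indep_iff]

theorem contraction_fam (M : Matroid S) (Z B : Set S)
    (hB : IsBasisOf (restriction (fam M) (M.E \ Z)) B) (hZ : Z ⊆ M.E) :
    contraction (fam M) Z B = fam (M ／ (M.E \ Z)) := by
  rw [restriction_fam, isBasisOf_iff, isBase_restrict_iff sdiff_subset] at hB
  ext Y
  change Y ⊆ Z ∧ M.Indep (Y ∪ B) ↔ (M ／ (M.E \ Z)).Indep Y
  rw [hB.contract_indep_iff]
  constructor
  · rintro ⟨h1, h2⟩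
    exact ⟨h2, disjoint_left.2 fun x hx hx' => hx.2 (h1 hx')⟩
  · rintro ⟨h1, h2⟩
    refine ⟨fun x hx => ?_, h1⟩
    by_contra hxZ
    exact disjoint_left.1 h2 ⟨h1.subset_ground (Or.inl hx), hxZ⟩ hx

theorem dualSpace_fam (M : Matroid S) : dualSpace M.E (fam M) = fam M✶ := by
  ext X
  change (X ⊆ M.E ∧ ∃ B, IsBasisOf (fam M) B ∧ B ⊆ M.E \ X) ↔ M✶.Indep X
  rw [dual_indep_iff_exists']
  refine and_congr_right fun hX => exists_congr fun B => ?_
  rw [isBasisOf_iff]
  refine and_congr_right fun hB => ?_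
  rw [subset_sdiff, and_iff_right hB.subset_ground, disjoint_comm]

/-- An independence space comes from a finitary matroid. -/
theorem exists_finitary {W : Set S} {I : Set (Set S)} (h : IsIndependenceSpace W I) :
    ∃ M : Matroid S, M.E = W ∧ fam M = I ∧ M.Finitary := by
  let N : IndepMatroid S := IndepMatroid.ofFinitaryCardAugment W (fun X => X ∈ I) h.empty_mem
    (fun X Y hY hXY => h.subset_mem Y hY X hXY)
    (by
      intro X Y hX hXf hY hYf hlt
      obtain ⟨e, he, he'⟩ := h.augment X hX Y hY hXf hYf hlt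
      exact ⟨e, he.1, he.2, he'⟩)
    (by
      intro X hX
      refine h.finitary X (fun x hx => ?_) hX
      exact h.ground _ (hX {x} (by simpa using hx) (finite_singleton x)) rfl)
    h.ground
  refine ⟨N.matroid, rfl, ?_, ?_⟩
  · ext X
    exact Iff.rfl
  · exact IndepMatroid.ofFinitaryCardAugment_finitary _ _ _ _ _ _ _

/-- The system of all direct sums of a finitary and a cofinitary matroid. -/
def sys (W : Set S) : Set (Set (Set S)) := {I | ∃ M : Matroid S, M.E = W ∧ fam M = I ∧ Good M}

theorem sys_admissible : IsAdmissible (sys (S := S)) where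
  pre := by
    rintro W I ⟨M, rfl, rfl, -⟩
    exact pre_fam M
  restriction_mem := by
    rintro W I ⟨M, rfl, rfl, hM⟩ Z hZ
    exact ⟨M ↾ Z, rfl, (restriction_fam M Z).symm, hM.restrict hZ⟩
  exists_basis := by
    rintro W I ⟨M, rfl, rfl, hM⟩ Z hZ
    obtain ⟨B, hB⟩ := (M ↾ (M.E \ Z)).exists_isBase
    exact ⟨B, by rw [restriction_fam, isBasisOf_iff]; exact hB⟩
  contraction_eq := by
    rintro W I ⟨M, rfl, rfl, hM⟩ Z hZ B B' hB hB'
    rw [contraction_fam M Z B hB hZ, contraction_fam M Z B' hB' hZ]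
  contraction_mem := by
    rintro W I ⟨M, rfl, rfl, hM⟩ Z hZ B hB
    refine ⟨M ／ (M.E \ Z), ?_, (contraction_fam M Z B hB hZ).symm, hM.contract⟩
    rw [contract_ground, sdiff_sdiff_cancel_left hZ]
  dual_mem := by
    rintro W I ⟨M, rfl, rfl, hM⟩
    exact ⟨M✶, rfl, (dualSpace_fam M).symm, hM.dual⟩
  dual_dual := by
    rintro W I ⟨M, rfl, rfl, hM⟩
    rw [dualSpace_fam]
    have := dualSpace_fam M✶
    rw [dual_ground, Matroid.dual_dual] at this
    exact this

theorem sys_sums : ClosedUnderDirectSums (sys (S := S)) := by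
  intro P J hP hJ
  have hex : ∀ V : P, ∃ M : Matroid S, M.E = V.1 ∧ fam M = J V.1 ∧ Good M :=
    fun V => hJ V.1 V.2
  choose M hE hf hg using hex
  have hd : Pairwise (Function.onFun Disjoint fun V : P => (M V).E) := by
    intro V V' hVV'
    change Disjoint (M V).E (M V').E
    rw [hE, hE]
    exact hP V.2 V'.2 (fun h => hVV' (Subtype.ext h))
  have hU : (⋃ V : P, (M V).E) = ⋃₀ P := by
    rw [sUnion_eq_iUnion]
    exact iUnion_congr hE
  refine ⟨Matroid.disjointSigma M hd, ?_, ?_, good_disjointSigma M hd hg⟩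
  · rw [disjointSigma_ground_eq, hU]
  · ext X
    change (Matroid.disjointSigma M hd).Indep X ↔ (X ⊆ ⋃₀ P ∧ ∀ V ∈ P, X ∩ V ∈ J V)
    rw [disjointSigma_indep_iff, hU, and_comm]
    refine and_congr_right fun _ => ?_
    constructor
    · intro h V hV
      have h1 := h ⟨V, hV⟩
      rw [hE] at h1
      rw [← hf ⟨V, hV⟩]
      exact h1
    · intro h V
      have h1 := h V.1 V.2
      rw [← hf V] at h1
      rw [hE]
      exact h1

theorem tame_ex (a : S) (A B : Set S) (ha : a ∈ A) (hAB : Disjoint A B) (hB : B.Infinite)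
    {C K : Set S} (hC : IsCircuitOf (A ∪ B) (fam (ex a A B)) C)
    (hK : IsCircuitOf (A ∪ B) (dualSpace (A ∪ B) (fam (ex a A B))) K) :
    (C ∩ K).encard ≤ 2 := by
  have hind := ex_indep a A B ha hAB hB.nonempty
  by_cases hCA : (C ∩ A).Subsingleton
  · by_cases hKB : (K ∩ B).Subsingleton
    · have hsub : C ∩ K ⊆ (C ∩ A) ∪ (K ∩ B) := by
        rintro z ⟨hz, hz'⟩
        rcases hC.prop.1 hz with h | h
        · exact Or.inl ⟨hz, h⟩
        · exact Or.inr ⟨hz', h⟩
      refine (encard_le_encard hsub).trans ((encard_union_le _ _).trans ?_)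
      have h1 := encard_le_one_iff_subsingleton.2 hCA
      have h2 := encard_le_one_iff_subsingleton.2 hKB
      calc (C ∩ A).encard + (K ∩ B).encard ≤ 1 + 1 := add_le_add h1 h2
        _ = 2 := by norm_num
    · rw [Set.not_subsingleton_iff] at hKB
      obtain ⟨x, hx, y, hy, hxy⟩ := hKB
      have hsub : ({x, y} : Set S) ⊆ K := by
        rintro z (rfl | hz)
        · exact hx.1
        · rw [mem_singleton_iff.1 hz]; exact hy.1
      have hle : K ⊆ {x, y} := by
        apply hK.le_of_le _ hsub
        refine ⟨?_, ?_⟩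
        · rintro z (rfl | hz)
          · exact Or.inr hx.2
          · rw [mem_singleton_iff.1 hz]; exact Or.inr hy.2
        · rintro ⟨-, J, hJ, hJs⟩
          have hJ1 : (ex a A B).Indep J := hJ.prop
          have hxJ : x ∉ J := fun h => (hJs h).2 (Or.inl rfl)
          have hyJ : y ∉ J := fun h => (hJs h).2 (Or.inr rfl)
          have hJ2 := (hind J).1 hJ1
          have hxA : x ∉ A := fun h => disjoint_left.1 hAB h hx.2
          have hJ3 : (ex a A B).Indep (insert x J) := by
            rw [hind]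
            refine ⟨insert_subset (Or.inr hx.2) hJ2.1, ?_, ?_⟩
            · rintro u ⟨hu | hu, huA⟩ v ⟨hv | hv, hvA⟩
              · exact absurd (hu ▸ huA) hxA
              · exact absurd (hu ▸ huA) hxA
              · exact absurd (hv ▸ hvA) hxA
              · exact hJ2.2.1 ⟨hu, huA⟩ ⟨hv, hvA⟩
            · intro _ hBs
              rcases hBs hy.2 with h | h
              · exact hxy h.symm
              · exact hyJ h
          exact hxJ (hJ.le_of_ge hJ3 (subset_insert _ _) (mem_insert _ _))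
      refine (encard_le_encard (inter_subset_right.trans hle)).trans ?_
      rw [encard_pair hxy]
  · rw [Set.not_subsingleton_iff] at hCA
    obtain ⟨x, hx, y, hy, hxy⟩ := hCA
    have hsub : ({x, y} : Set S) ⊆ C := by
      rintro z (rfl | hz)
      · exact hx.1
      · rw [mem_singleton_iff.1 hz]; exact hy.1
    have hle : C ⊆ {x, y} := by
      apply hC.le_of_le _ hsub
      refine ⟨?_, ?_⟩
      · rintro z (rfl | hz)
        · exact Or.inl hx.2
        · rw [mem_singleton_iff.1 hz]; exact Or.inl hy.2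
      · intro h
        have h1 := ((hind _).1 h).2.1
        exact hxy (h1 ⟨Or.inl rfl, hx.2⟩ ⟨Or.inr rfl, hy.2⟩)
    refine (encard_le_encard (inter_subset_left.trans hle)).trans ?_
    rw [encard_pair hxy]

end proofs

/-- For every set `S` there is an admissible system, closed under arbitrary direct sums, which
contains all independence spaces on subsets of `S`, but which on every infinite subset `W` of `S`
misses some B-matroid, even one in which every circuit meets every cocircuit (circuit of the dual)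
in at most two elements. -/
theorem result (S : Type*) : ∃ D : Set S → Set (Set (Set S)),
    IsAdmissible D ∧ ClosedUnderDirectSums D ∧
    (∀ (W : Set S) (I : Set (Set S)), IsIndependenceSpace W I → I ∈ D W) ∧
    ∀ W : Set S, W.Infinite → ∃ I : Set (Set S), IsBMatroid W I ∧
      (∀ C K : Set S, IsCircuitOf W I C → IsCircuitOf W (dualSpace W I) K →
        (C ∩ K).encard ≤ 2) ∧ I ∉ D W := by
  refine ⟨sys, sys_admissible, sys_sums, ?_, ?_⟩
  · intro W I hI
    obtain ⟨M, h1, h2, h3⟩ := exists_finitary hI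
    exact ⟨M, h1, h2, good_of_finitary h3⟩
  · intro W hW
    obtain ⟨A, B, hAW, hBW, hAB, hun, hA, hB⟩ : ∃ A B : Set S, A ⊆ W ∧ B ⊆ W ∧ Disjoint A B ∧
        A ∪ B = W ∧ A.Infinite ∧ B.Infinite := by
      have := hW.to_subtype
      let f := hW.natEmbedding
      refine ⟨range fun n => (f (2 * n) : S), W \ range fun n => (f (2 * n) : S), ?_, sdiff_subset,
        disjoint_sdiff_right, ?_, ?_, ?_⟩
      · rintro x ⟨n, rfl⟩; exact (f (2 * n)).2
      · rw [union_sdiff_self, union_eq_right]
        rintro x ⟨n, rfl⟩; exact (f (2 * n)).2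
      · apply infinite_range_of_injective
        intro m n hmn
        have h1 := f.injective (Subtype.ext hmn)
        omega
      · apply (infinite_range_of_injective (f := fun n : ℕ => (f (2 * n + 1) : S)) ?_).mono
        · rintro x ⟨n, rfl⟩
          refine ⟨(f (2 * n + 1)).2, ?_⟩
          rintro ⟨m, hm⟩
          have h1 := f.injective (Subtype.ext hm)
          omega
        · intro m n hmn
          have h1 := f.injective (Subtype.ext hmn)
          omega
    obtain ⟨a, ha⟩ := hA.nonempty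
    refine ⟨fam (ex a A B), ?_, ?_, ?_⟩
    · have h1 := bmatroid_fam (ex a A B)
      rwa [ex_ground, hun] at h1
    · intro C K hC hK
      subst hun
      exact tame_ex a A B ha hAB hB hC hK
    · rintro ⟨M, hE, hf, hg⟩
      have h1 : M = ex a A B := fam_injE (by rw [hE, ex_ground, hun]) hf
      exact ex_not_good a A B ha hAB hA hB (h1 ▸ hg)

end Pool.Agent.Results.MP_cb2a9f_co.ProperAdmissibleSystem
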